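import Pool.Agent.W966.Vf.Stms2

set_option autoImplicit false

/-! # VF-LIM: limit of a space spanned by power series vectors -/

namespace Pool.Agent.W613.VF

open Module Pool.Agent.W966.Vf

theorem lim : S_LIM := by
  classical
  intro Ω ν τ _ _ _ c
  -- the linear map
  let L : (ν → PowerSeries Ω) →ₗ[PowerSeries Ω] (τ → PowerSeries Ω) :=
    { toFun := fun l t => ∑ v, l v * c t v
      map_add' := by
        intro x y
        funext t
        simp [add_mul, Finset.sum_add_distrib]
      map_smul' := by
        intro r x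
        funext t
        simp [Finset.mul_sum, mul_assoc] }
  have hL : ∀ l t, L l t = ∑ v, l v * c t v := fun _ _ => rfl
  -- a basis of the kernel
  obtain ⟨n, b⟩ := Submodule.basisOfPid (Pi.basisFun (PowerSeries Ω) ν) (LinearMap.ker L)
  have hn : finrank (PowerSeries Ω) (LinearMap.ker L) = n := by
    rw [finrank_eq_card_basis b, Fintype.card_fin]
  have hrn : finrank (PowerSeries Ω) (LinearMap.range L) +
      finrank (PowerSeries Ω) (LinearMap.ker L) = finrank (PowerSeries Ω) (ν → PowerSeries Ω) := by
    rw [← Submodule.finrank_quotient_add_finrank (LinearMap.ker L),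
      L.quotKerEquivRange.finrank_eq]
  rw [hn, finrank_fintype_fun_eq_card] at hrn
  have hrange : finrank (PowerSeries Ω) (LinearMap.range L) ≤ Fintype.card τ := by
    have := Submodule.finrank_le (LinearMap.range L)
    rwa [finrank_fintype_fun_eq_card] at this
  -- the reduction
  let M0 : Submodule Ω (ν → Ω) :=
    { carrier := {f | ∃ l ∈ LinearMap.ker L, ∀ v, PowerSeries.constantCoeff (l v) = f v}
      add_mem' := by
        rintro f g ⟨l, hl, hf⟩ ⟨m, hm, hg⟩
        refine ⟨l + m, Submodule.add_mem _ hl hm, fun v => ?_⟩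
        rw [Pi.add_apply, map_add, hf, hg]
        rfl
      zero_mem' := ⟨0, Submodule.zero_mem _, fun v => by simp⟩
      smul_mem' := by
        rintro a f ⟨l, hl, hf⟩
        refine ⟨PowerSeries.C a • l, Submodule.smul_mem _ _ hl, fun v => ?_⟩
        rw [Pi.smul_apply, smul_eq_mul, map_mul, hf, PowerSeries.constantCoeff_C]
        rfl }
  have hM0 : ∀ f, f ∈ M0 ↔ ∃ l ∈ LinearMap.ker L, ∀ v, PowerSeries.constantCoeff (l v) = f v :=
    fun _ => Iff.rfl
  let w : Fin n → M0 := fun j => ⟨fun v => PowerSeries.constantCoeff ((b j : ν → PowerSeries Ω) v),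
    (b j : ν → PowerSeries Ω), (b j).2, fun v => rfl⟩
  have hw : LinearIndependent Ω w := by
    rw [Fintype.linearIndependent_iff]
    intro a ha j
    -- the combination
    have hcomp : ∀ v, ∑ i, a i * PowerSeries.constantCoeff ((b i : ν → PowerSeries Ω) v) = 0 := by
      intro v
      have h1 := congrArg (fun x : M0 => (x : ν → Ω) v) ha
      simp only [Submodule.coe_sum, Submodule.coe_smul, Finset.sum_apply, Pi.smul_apply,
        smul_eq_mul, ZeroMemClass.coe_zero, Pi.zero_apply] at h1
      exact h1
    have hdvd : ∀ v, ∃ l', (∑ i, PowerSeries.C (a i) • (b i : ν → PowerSeries Ω)) v =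
        PowerSeries.X * l' := by
      intro v
      have : PowerSeries.X ∣ (∑ i, PowerSeries.C (a i) • (b i : ν → PowerSeries Ω)) v := by
        rw [PowerSeries.X_dvd_iff, Finset.sum_apply, map_sum]
        simp only [Pi.smul_apply, smul_eq_mul, map_mul, PowerSeries.constantCoeff_C]
        exact hcomp v
      exact this
    choose l' hl' using hdvd
    have hl'' : (∑ i, PowerSeries.C (a i) • (b i : ν → PowerSeries Ω)) =
        (PowerSeries.X : PowerSeries Ω) • l' := by
      funext v
      rw [hl' v]
      rfl
    have hker : l' ∈ LinearMap.ker L := by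
      rw [LinearMap.mem_ker]
      have h1 : L ((PowerSeries.X : PowerSeries Ω) • l') = 0 := by
        rw [← hl'', ← LinearMap.mem_ker]
        exact Submodule.sum_mem _ fun i _ => Submodule.smul_mem _ _ (b i).2
      rw [map_smul] at h1
      exact (smul_eq_zero.mp h1).resolve_left PowerSeries.X_ne_zero
    have hexp := b.sum_repr ⟨l', hker⟩
    have h2 : ∑ i, (PowerSeries.C (a i) - PowerSeries.X * b.repr ⟨l', hker⟩ i) • b i = 0 := by
      apply Subtype.ext
      have h3 := congrArg (fun x : LinearMap.ker L => (x : ν → PowerSeries Ω)) hexp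
      simp only [Submodule.coe_sum, Submodule.coe_smul] at h3
      simp only [sub_smul, Finset.sum_sub_distrib, mul_smul, Submodule.coe_sub,
        Submodule.coe_sum, Submodule.coe_smul, ZeroMemClass.coe_zero]
      rw [← Finset.smul_sum, h3, hl'', sub_self]
    have h4 := (Fintype.linearIndependent_iff.mp b.linearIndependent) _ h2 j
    have h5 := congrArg PowerSeries.constantCoeff h4
    rw [map_sub, map_mul, PowerSeries.constantCoeff_X, zero_mul, sub_zero,
      PowerSeries.constantCoeff_C, map_zero] at h5
    exact h5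
  have hdim : n ≤ finrank Ω M0 := by
    have := hw.fintype_card_le_finrank
    rwa [Fintype.card_fin] at this
  -- the annihilator
  let Φ : Submodule Ω (Dual Ω (ν → Ω)) := M0.map (dotProductEquiv Ω ν).toLinearMap
  have hΦ : finrank Ω Φ = finrank Ω M0 := LinearEquiv.finrank_map_eq (dotProductEquiv Ω ν) M0
  have hsum := Subspace.finrank_add_finrank_dualCoannihilator_eq Φ
  rw [hΦ, finrank_fintype_fun_eq_card] at hsum
  refine ⟨Φ.dualCoannihilator, by omega, ?_⟩
  intro f hf
  have h1 : dotProductEquiv Ω ν f ∈ Φ.dualCoannihilator.dualAnnihilator := by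
    rw [Submodule.mem_dualAnnihilator]
    intro x hx
    exact hf x hx
  rw [Subspace.dualCoannihilator_dualAnnihilator_eq] at h1
  obtain ⟨f', hf', hff⟩ := h1
  have h2 : f' = f := (dotProductEquiv Ω ν).injective hff
  rw [h2] at hf'
  obtain ⟨l, hl, hlf⟩ := hf'
  refine ⟨l, hlf, fun t => ?_⟩
  rw [LinearMap.mem_ker] at hl
  rw [← hL, hl]
  rfl

end Pool.Agent.W613.VF
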